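import Pool.Agent.WT7.KFin

/-!
# Weak Turan-goodness for `K_k` with bipartite graphs attached (MP_aeb998_co)

Gerbner's question for all `k ≥ 2`, all `K_k`-free `H`, and all `F` that consist of a complete graph on a set `Q` of `k` vertices and
bipartite graphs, each of which has at most one vertex in `Q`.
-/

namespace Pool.Agent.Results.MP_aeb998_co.AttachedBipartite

open Pool.Agent.WT7

/-- Let `k ≥ 2`, let `H` be `K_k`-free, and let `F` be a `k`-chromatic graph with a clique `Q` of `k` vertices such that `F` minus the edges inside `Q` is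
bipartite and its components contain at most one vertex of `Q` each. Then `ex(n, H, F) = ex(n, H, K_k)` for all large `n`, and if `H` is weakly
`K_k`-Turan-good then it is weakly `F`-Turan-good. -/
theorem result {α β : Type} [Fintype α] [Fintype β] (k : ℕ) (hk : 2 ≤ k) (H : SimpleGraph α) (hH : H.CliqueFree k)
    (F : SimpleGraph β) (hχ : F.chromaticNumber = k) (Q : Set β) (hF : KB F Q k) :
    (∃ n₀ : ℕ, ∀ n ≥ n₀, ex n H F = ex n H (⊤ : SimpleGraph (Fin k))) ∧
      (WeaklyTuranGood H (⊤ : SimpleGraph (Fin k)) → WeaklyTuranGood H F) :=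
  ⟨k_ex hk hH hF, k_good hk hH hF hχ⟩

end Pool.Agent.Results.MP_aeb998_co.AttachedBipartite
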